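import Mathlib
import Pool.Agent.Q77.ToricGB
import Pool.Agent.Q77.SymStoch

/-!
# A Groebner basis element of degree three with a block form (negative answer to Q1)

For every `n ≥ 4`, every field `k` and every order `≺_{S_n}`, the reduced Groebner basis of
`I_{S_n}` contains an element of degree `3` whose matrix has a block form.
-/

open MvPolynomial Pool.Agent.Q77.ToricGB Pool.Agent.Q77.SymStoch

namespace Pool.Agent.Results.MP_dd0c5a_co.BlockForm

/-- The matrix `A` has a block form. -/
def HasBlockForm {n : ℕ} (A : Matrix (Fin n) (Fin n) ℕ) : Prop :=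
  ∃ V : Set (Fin n), V.Nonempty ∧ Vᶜ.Nonempty ∧ ∀ i ∈ V, ∀ j ∈ Vᶜ, A i j = 0

/-- For every `n ≥ 4` and every field: admissible orders exist, and for every one of them there is
exactly one reduced Groebner basis of `I_{S_n}`, and it contains a binomial of degree `3` whose
matrix has a block form. -/
theorem result (n : ℕ) (hn : 4 ≤ n) (k : Type) [Field k] :
    (∃ r : Pt n → Pt n → Prop, Admissible r) ∧
    ∀ (r : Pt n → Pt n → Prop) (hr : Admissible r),
      ∃ G : Set (MvPolynomial (Pt n) k),
        IsReducedGroebner (grevlex r hr.total) (toricIdeal k n) G ∧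
        (∀ G', IsReducedGroebner (grevlex r hr.total) (toricIdeal k n) G' → G' = G) ∧
        ∃ g ∈ G, ∃ A : Matrix (Fin n) (Fin n) ℕ, HasMatrix g A 3 ∧ HasBlockForm A := by
  refine ⟨exists_admissible n, fun r hr => ?_⟩
  obtain ⟨G, hG, huniq, g, hg, hA⟩ := main n hn k r hr
  refine ⟨G, hG, huniq, g, hg, A n, hA, {i | i.val < 3}, ⟨⟨0, by omega⟩, by simp⟩,
    ⟨⟨3, by omega⟩, by simp⟩, ?_⟩
  intro i hi j hj
  simp only [Set.mem_setOf_eq] at hi
  simp only [Set.mem_compl_iff, Set.mem_setOf_eq] at hj
  have hne : i ≠ j := by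
    rintro rfl
    exact hj hi
  simp [A, hj, hne]

end Pool.Agent.Results.MP_dd0c5a_co.BlockForm
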